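import Pool.Agent.R284.RC.Stm
import Pool.Agent.Helper88.RB.P_lsc_energy

/-!
Project RC: the limit equilibrium measure (RC-NU).
-/

set_option autoImplicit false
open MeasureTheory Set Filter Topology
open scoped ENNReal NNReal

namespace Pool.Agent.R375.RC

open Pool.Agent.R284.RC

variable {n : ℕ}

/-- the kernel with values in `[0,∞]`, shifted by a constant -/
noncomputable def kE (p L : ℝ) (x y : E n) : ℝ≥0∞ :=
  if p = 0 then (-(ENNReal.log (ENNReal.ofReal (dist x y / L)))).toENNReal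
  else (ENNReal.ofReal (dist x y)) ^ (-p)

/-- the shift -/
noncomputable def c0 (p L : ℝ) : ℝ := if p = 0 then Real.log L else 0

lemma kE_cont (p L : ℝ) : Continuous (fun z : E n × E n => kE p L z.1 z.2) := by
  unfold kE
  by_cases hp : p = 0
  · simp only [hp, if_true]
    refine Continuous.ereal_toENNReal ?_
    refine continuous_neg.comp ?_
    exact ENNReal.continuous_log.comp (ENNReal.continuous_ofReal.comp
      ((continuous_fst.dist continuous_snd).div_const L))
  · simp only [hp, if_false]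
    exact ENNReal.continuous_rpow_const.comp (ENNReal.continuous_ofReal.comp
      (continuous_fst.dist continuous_snd))

lemma kE_self {p : ℝ} (hp : 0 ≤ p) (L : ℝ) (x : E n) : kE p L x x = ⊤ := by
  unfold kE
  by_cases h : p = 0
  · simp [h]
  · rw [if_neg h, dist_self, ENNReal.ofReal_zero]
    have : 0 < p := lt_of_le_of_ne hp (Ne.symm h)
    exact ENNReal.zero_rpow_of_neg (by linarith)

lemma kE_ne {p L : ℝ} (hL : 0 < L) {x y : E n} (hxy : x ≠ y) (hd : dist x y ≤ L) :
    kE p L x y = ENNReal.ofReal (kr p x y + c0 p L) ∧ 0 ≤ kr p x y + c0 p L := by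
  have hpos : 0 < dist x y := dist_pos.2 hxy
  unfold kE kr c0
  by_cases h : p = 0
  · simp only [h, if_true]
    have h1 : 0 < dist x y / L := div_pos hpos hL
    have h2 : -Real.log (dist x y / L) = -Real.log (dist x y) + Real.log L := by
      rw [Real.log_div hpos.ne' hL.ne']
      ring
    constructor
    · rw [ENNReal.log_ofReal_of_pos h1, ← EReal.coe_neg, EReal.real_coe_toENNReal, h2]
    · rw [← h2]
      have : Real.log (dist x y / L) ≤ 0 := Real.log_nonpos h1.le ((div_le_one hL).2 hd)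
      linarith
  · simp only [h, if_false, add_zero]
    exact ⟨ENNReal.ofReal_rpow_of_pos hpos, Real.rpow_nonneg hpos.le _⟩

lemma ke_le {p L : ℝ} (hp : 0 ≤ p) (hL : 0 < L) {x y : E n} (hd : dist x y ≤ L) :
    ke p x y ≤ kE p L x y + ENNReal.ofReal |c0 p L| := by
  by_cases h : x = y
  · subst h
    rw [kE_self hp]
    simp
  · obtain ⟨h1, h2⟩ := kE_ne (p := p) hL h hd
    rw [h1, ke, if_neg h, ← ENNReal.ofReal_add h2 (abs_nonneg _)]
    apply ENNReal.ofReal_le_ofReal
    have h3 : |kr p x y| ≤ |kr p x y + c0 p L| + |c0 p L| := by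
      have := abs_sub (kr p x y + c0 p L) (c0 p L)
      simpa using this
    rwa [abs_of_nonneg h2] at h3

lemma kE_le {p L : ℝ} (hL : 0 < L) {x y : E n} (hd : dist x y ≤ L) :
    kE p L x y ≤ ke p x y + ENNReal.ofReal |c0 p L| := by
  by_cases h : x = y
  · subst h
    simp [ke]
  · obtain ⟨h1, h2⟩ := kE_ne (p := p) hL h hd
    rw [h1, ke, if_neg h, ← ENNReal.ofReal_add (abs_nonneg _) (abs_nonneg _)]
    apply ENNReal.ofReal_le_ofReal
    have h3 := le_abs_self (kr p x y)
    have h4 := le_abs_self (c0 p L)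
    linarith

/-- the shifted energy -/
noncomputable def J (p L : ℝ) (σ τ : Measure (E n)) : ℝ≥0∞ := ∫⁻ x, ∫⁻ y, kE p L x y ∂τ ∂σ

lemma aeK {σ : Measure (E n)} {K : Set (E n)} (h : σ Kᶜ = 0) : ∀ᵐ x ∂σ, x ∈ K := by
  rw [ae_iff]
  exact h

lemma conv {p L : ℝ} (hp : 0 ≤ p) (hL : 0 < L) {σ τ : Measure (E n)} [IsProbabilityMeasure σ]
    [IsProbabilityMeasure τ] {K : Set (E n)} (hσ : σ Kᶜ = 0) (hτ : τ Kᶜ = 0)
    (hK : ∀ x ∈ K, ∀ y ∈ K, dist x y ≤ L) (hJ : J p L σ τ < ⊤) :
    FinEn p σ τ ∧ En p σ τ = (J p L σ τ).toReal - c0 p L := by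
  constructor
  · unfold FinEn
    have h1 : ∫⁻ x, ∫⁻ y, ke p x y ∂τ ∂σ ≤
        ∫⁻ x, (∫⁻ y, kE p L x y ∂τ + ENNReal.ofReal |c0 p L|) ∂σ := by
      refine lintegral_mono_ae ?_
      filter_upwards [aeK hσ] with x hx
      calc ∫⁻ y, ke p x y ∂τ ≤ ∫⁻ y, (kE p L x y + ENNReal.ofReal |c0 p L|) ∂τ := by
            refine lintegral_mono_ae ?_
            filter_upwards [aeK hτ] with y hy
            exact ke_le hp hL (hK x hx y hy)
        _ = _ := by
            rw [lintegral_add_right _ measurable_const, lintegral_const, measure_univ, mul_one]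
    refine h1.trans_lt ?_
    rw [lintegral_add_right _ measurable_const, lintegral_const, measure_univ, mul_one]
    exact ENNReal.add_lt_top.2 ⟨hJ, ENNReal.ofReal_lt_top⟩
  · have hm : Measurable (fun z : E n × E n => kE p L z.1 z.2) := (kE_cont p L).measurable
    have hJ2 : ∫⁻ z, kE p L z.1 z.2 ∂(σ.prod τ) = J p L σ τ := lintegral_prod _ hm.aemeasurable
    have hfin : ∫⁻ z, kE p L z.1 z.2 ∂(σ.prod τ) ≠ ⊤ := by rw [hJ2]; exact hJ.ne
    have hae1 : ∀ᵐ z ∂(σ.prod τ), z.1 ∈ K :=
      (Measure.quasiMeasurePreserving_fst (μ := σ) (ν := τ)).ae (aeK hσ)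
    have hae2 : ∀ᵐ z ∂(σ.prod τ), z.2 ∈ K :=
      (Measure.quasiMeasurePreserving_snd (μ := σ) (ν := τ)).ae (aeK hτ)
    have hlt : ∀ᵐ z ∂(σ.prod τ), kE p L z.1 z.2 < ⊤ := ae_lt_top hm hfin
    have hcongr : (fun z : E n × E n => kr p z.1 z.2) =ᵐ[σ.prod τ]
        fun z => (kE p L z.1 z.2).toReal - c0 p L := by
      filter_upwards [hae1, hae2, hlt] with z h1 h2 h3
      have hne : z.1 ≠ z.2 := by
        intro h
        rw [h, kE_self hp] at h3
        exact lt_irrefl _ h3
      obtain ⟨h4, h5⟩ := kE_ne (p := p) hL hne (hK _ h1 _ h2)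
      rw [h4, ENNReal.toReal_ofReal h5]
      ring
    have hint : Integrable (fun z : E n × E n => (kE p L z.1 z.2).toReal) (σ.prod τ) :=
      integrable_toReal_of_lintegral_ne_top hm.aemeasurable hfin
    have hint2 : Integrable (fun z : E n × E n => kr p z.1 z.2) (σ.prod τ) :=
      (hint.sub (integrable_const _)).congr hcongr.symm
    have h6 : En p σ τ = ∫ z, kr p z.1 z.2 ∂(σ.prod τ) := by
      unfold En U
      rw [integral_prod _ hint2]
    rw [h6, integral_congr_ae hcongr, integral_sub hint (integrable_const _), integral_const]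
    simp only [measureReal_def, measure_univ, ENNReal.toReal_one, smul_eq_mul, one_mul]
    rw [integral_toReal hm.aemeasurable hlt, hJ2]

lemma rev {p L : ℝ} (hL : 0 < L) {σ τ : Measure (E n)} [IsProbabilityMeasure σ]
    [IsProbabilityMeasure τ] {K : Set (E n)} (hσ : σ Kᶜ = 0) (hτ : τ Kᶜ = 0)
    (hK : ∀ x ∈ K, ∀ y ∈ K, dist x y ≤ L) (hF : FinEn p σ τ) : J p L σ τ < ⊤ := by
  unfold J
  have h1 : ∫⁻ x, ∫⁻ y, kE p L x y ∂τ ∂σ ≤
      ∫⁻ x, (∫⁻ y, ke p x y ∂τ + ENNReal.ofReal |c0 p L|) ∂σ := by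
    refine lintegral_mono_ae ?_
    filter_upwards [aeK hσ] with x hx
    calc ∫⁻ y, kE p L x y ∂τ ≤ ∫⁻ y, (ke p x y + ENNReal.ofReal |c0 p L|) ∂τ := by
          refine lintegral_mono_ae ?_
          filter_upwards [aeK hτ] with y hy
          exact kE_le hL (hK x hx y hy)
      _ = _ := by
          rw [lintegral_add_right _ measurable_const, lintegral_const, measure_univ, mul_one]
  refine h1.trans_lt ?_
  rw [lintegral_add_right _ measurable_const, lintegral_const, measure_univ, mul_one]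
  exact ENNReal.add_lt_top.2 ⟨hF, ENNReal.ofReal_lt_top⟩

/-- the kernel on a set -/
noncomputable def kK (p L : ℝ) (K : Set (E n)) (z : K × K) : ℝ≥0∞ :=
  kE p L (z.1 : E n) (z.2 : E n)

lemma kK_cont (p L : ℝ) (K : Set (E n)) : Continuous (kK p L K) := by
  have h1 : Continuous (fun z : K × K => ((z.1 : E n), (z.2 : E n))) :=
    (continuous_subtype_val.comp continuous_fst).prodMk
      (continuous_subtype_val.comp continuous_snd)
  have h2 : kK p L K = (fun z : E n × E n => kE p L z.1 z.2) ∘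
      (fun z : K × K => ((z.1 : E n), (z.2 : E n))) := rfl
  rw [h2]
  exact (kE_cont p L).comp h1

lemma J_map {p L : ℝ} {K : Set (E n)} (hK : MeasurableSet K) (m : Measure K) [SFinite m] :
    J p L (m.map Subtype.val) (m.map Subtype.val) = ∫⁻ z, kK p L K z ∂(m.prod m) := by
  have hemb : MeasurableEmbedding (Subtype.val : K → E n) := MeasurableEmbedding.subtype_coe hK
  unfold J
  rw [hemb.lintegral_map, lintegral_prod _ (kK_cont p L K).measurable.aemeasurable]
  refine lintegral_congr fun x => ?_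
  rw [hemb.lintegral_map]
  rfl

lemma lsc_K (p L : ℝ) (K : Set (E n)) :
    LowerSemicontinuous (fun ν : ProbabilityMeasure K =>
      ∫⁻ z, kK p L K z ∂((ν : Measure K).prod (ν : Measure K))) :=
  Pool.Agent.Helper88.RB.lsc_energy _ (kK_cont p L K)

lemma comap_K {K : Set (E n)} (hK : MeasurableSet K) {σ : Measure (E n)}
    (hσ : IsProbabilityMeasure σ) (hσK : σ Kᶜ = 0) :
    IsProbabilityMeasure (σ.comap (Subtype.val : K → E n)) ∧
      (σ.comap (Subtype.val : K → E n)).map Subtype.val = σ := by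
  have hemb : MeasurableEmbedding (Subtype.val : K → E n) := MeasurableEmbedding.subtype_coe hK
  constructor
  · refine ⟨?_⟩
    rw [hemb.comap_apply]
    simp only [Set.image_univ, Subtype.range_coe]
    have := measure_add_measure_compl (μ := σ) hK
    rw [hσK, add_zero, measure_univ] at this
    exact this
  · rw [hemb.map_comap, Subtype.range_coe]
    refine Measure.restrict_eq_self_of_ae_mem ?_
    rw [ae_iff]
    exact hσK

/-- compactness: a limit point of a sequence of probability measures on a compact set, together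
with the lower semicontinuity of the energy and the convergence of continuous integrals -/
lemma limit {p L : ℝ} {K : Set (E n)} (hKc : IsCompact K) (s : ℕ → Measure (E n))
    (hsp : ∀ k, IsProbabilityMeasure (s k)) (hsK : ∀ k, s k Kᶜ = 0) :
    ∃ ν : Measure (E n), IsProbabilityMeasure ν ∧ ν Kᶜ = 0 ∧
      (∀ a : ℝ≥0∞, a < J p L ν ν → ∀ᶠ k in (hyperfilter ℕ : Filter ℕ), a < J p L (s k) (s k)) ∧
      ∀ f : E n → ℝ, Continuous f →
        Tendsto (fun k => ∫ x, f x ∂(s k)) (hyperfilter ℕ : Filter ℕ) (𝓝 (∫ x, f x ∂ν)) := by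
  have hKm : MeasurableSet K := hKc.measurableSet
  haveI : CompactSpace K := isCompact_iff_compactSpace.1 hKc
  have hemb : MeasurableEmbedding (Subtype.val : K → E n) := MeasurableEmbedding.subtype_coe hKm
  obtain ⟨ps, hps⟩ : ∃ ps : ℕ → ProbabilityMeasure K,
      ∀ k, ((ps k : ProbabilityMeasure K) : Measure K).map Subtype.val = s k :=
    ⟨fun k => ⟨(s k).comap Subtype.val, (comap_K hKm (hsp k) (hsK k)).1⟩,
      fun k => (comap_K hKm (hsp k) (hsK k)).2⟩
  obtain ⟨ν0, hlim⟩ : ∃ ν0 : ProbabilityMeasure K,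
      Tendsto ps (hyperfilter ℕ : Filter ℕ) (𝓝 ν0) :=
    ⟨((hyperfilter ℕ).map ps).lim, ((hyperfilter ℕ).map ps).le_nhds_lim⟩
  refine ⟨(ν0 : Measure K).map Subtype.val,
    Measure.isProbabilityMeasure_map hemb.measurable.aemeasurable, ?_, ?_, ?_⟩
  · rw [hemb.map_apply]
    simp
  · intro a ha
    rw [J_map hKm] at ha
    filter_upwards [hlim.eventually (lsc_K p L K ν0 a ha)] with k hk
    rw [← hps k, J_map hKm]
    exact hk
  · intro f hf
    have h1 := (ProbabilityMeasure.tendsto_iff_forall_integral_tendsto.1 hlim)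
      (BoundedContinuousFunction.mkOfCompact ⟨fun x : K => f (x : E n),
        hf.comp continuous_subtype_val⟩)
    have h2 : ∀ m : Measure K, ∫ x, f x ∂(m.map Subtype.val) = ∫ x : K, f (x : E n) ∂m := by
      intro m
      rw [hemb.integral_map]
    have h3 : (fun k => ∫ x, f x ∂(s k)) = fun k => ∫ x : K, f (x : E n)
        ∂((ps k : ProbabilityMeasure K) : Measure K) := by
      funext k
      rw [← h2, hps]
    rw [h3, h2]
    exact h1

theorem nu_proof (hint : S_int) (hcont : S_cont) (hcls : S_cls) (hexp : S_exp) : S_nu := by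
  intro n p q hp hpq μ hμ hBP hBS V hV hinf
  obtain ⟨R0, hR0⟩ := hBS
  set R : ℝ := max R0 1 with hR
  have hR1 : 1 ≤ R := le_max_right _ _
  set K : Set (E n) := Metric.closedBall 0 R with hKdef
  have hKc : IsCompact K := isCompact_closedBall _ _
  have hKm : MeasurableSet K := hKc.measurableSet
  have hμK : μ Kᶜ = 0 := by
    refine measure_mono_null ?_ hR0
    apply compl_subset_compl.2
    exact Metric.closedBall_subset_closedBall (le_max_left _ _)
  set L : ℝ := 2 * R with hLdef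
  have hL : 0 < L := by linarith
  have hKL : ∀ x ∈ K, ∀ y ∈ K, dist x y ≤ L := by
    intro x hx y hy
    have h1 : dist x 0 ≤ R := hx
    have h2 : dist y 0 ≤ R := hy
    calc dist x y ≤ dist x 0 + dist 0 y := dist_triangle _ _ _
      _ ≤ R + R := add_le_add h1 (by rwa [dist_comm])
      _ = L := by rw [hLdef]; ring
  have hBSK : ∀ σ : Measure (E n), σ Kᶜ = 0 → BS σ := fun σ h => ⟨R, h⟩
  have hclsK : ∀ σ ∈ Cls μ, σ Kᶜ = 0 := by
    rintro σ ⟨-, ⟨c, hc⟩, -⟩
    have h1 := hc Kᶜ
    rw [Measure.smul_apply, hμK, smul_zero] at h1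
    exact le_antisymm h1 bot_le
  obtain ⟨hmix, hclsBP, -⟩ := hcls n q μ inferInstance
  have hclsBP' := hclsBP hBP
  -- the minimizing sequence
  have hseq : ∀ k : ℕ, ∃ σ ∈ Cls μ, En p σ σ ≤ V + 1 / ((k : ℝ) + 1) := fun k =>
    hinf _ (by positivity)
  choose s hs hsE using hseq
  haveI hsp : ∀ k, IsProbabilityMeasure (s k) := fun k => (hs k).1
  have hsK : ∀ k, s k Kᶜ = 0 := fun k => hclsK _ (hs k)
  obtain ⟨ν, hνp, hνK, hνJ, hνf⟩ := limit (p := p) (L := L) hKc s hsp hsK
  obtain ⟨F, hF⟩ : ∃ F : Ultrafilter ℕ, F = hyperfilter ℕ := ⟨_, rfl⟩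
  rw [← hF] at hνJ hνf
  have hFle : (F : Filter ℕ) ≤ atTop := by rw [hF]; exact Nat.hyperfilter_le_atTop
  -- energies of the sequence
  have hfin : ∀ σ ∈ Cls μ, FinEn p σ σ := by
    intro σ hσ
    haveI := hσ.1
    exact (hint n p q hp hpq σ σ inferInstance inferInstance (hclsBP' σ hσ)
      (hBSK _ (hclsK σ hσ)) (hBSK _ (hclsK σ hσ))).2.2
  have hJs : ∀ k, J p L (s k) (s k) < ⊤ := fun k => rev hL (hsK k) (hsK k) hKL (hfin _ (hs k))
  have hEs : ∀ k, En p (s k) (s k) = (J p L (s k) (s k)).toReal - c0 p L := fun k =>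
    (conv hp hL (hsK k) (hsK k) hKL (hJs k)).2
  have hJle : ∀ k, J p L (s k) (s k) ≤ ENNReal.ofReal (V + 1 / ((k : ℝ) + 1) + c0 p L) := by
    intro k
    rw [← ENNReal.ofReal_toReal (hJs k).ne]
    apply ENNReal.ofReal_le_ofReal
    have h1 := hEs k
    have h2 := hsE k
    linarith
  have htend : Tendsto (fun k : ℕ => V + 1 / ((k : ℝ) + 1) + c0 p L) F (𝓝 (V + c0 p L)) := by
    have h1 : Tendsto (fun k : ℕ => V + 1 / ((k : ℝ) + 1) + c0 p L) atTop
        (𝓝 (V + 0 + c0 p L)) :=
      (tendsto_const_nhds.add tendsto_one_div_add_atTop_nhds_zero_nat).add tendsto_const_nhds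
    rw [add_zero] at h1
    exact h1.mono_left hFle
  have hV0 : 0 ≤ V + c0 p L := by
    refine ge_of_tendsto htend (Eventually.of_forall fun k => ?_)
    have h1 := hEs k
    have h2 := hsE k
    have h3 : 0 ≤ (J p L (s k) (s k)).toReal := ENNReal.toReal_nonneg
    linarith
  have hJν : J p L ν ν ≤ ENNReal.ofReal (V + c0 p L) := by
    by_contra hcon
    push Not at hcon
    obtain ⟨a, ha1, ha2⟩ := exists_between hcon
    have h1 := hνJ a ha2
    have h2 : ∀ᶠ k : ℕ in (F : Filter ℕ), ENNReal.ofReal (V + 1 / ((k : ℝ) + 1) + c0 p L) < a :=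
      ((ENNReal.continuous_ofReal.tendsto _).comp htend).eventually (eventually_lt_nhds ha1)
    obtain ⟨k, hk1, hk2⟩ := (h1.and h2).exists
    have h4 := hJle k
    exact absurd (hk1.trans_le h4) (not_lt.2 hk2.le)
  have hJν' : J p L ν ν < ⊤ := hJν.trans_lt ENNReal.ofReal_lt_top
  obtain ⟨hFν, hEν⟩ := conv hp hL hνK hνK hKL hJν'
  refine ⟨ν, hνp, hBSK _ hνK, hFν, ?_, ?_⟩
  · rw [hEν]
    have h1 : (J p L ν ν).toReal ≤ V + c0 p L := ENNReal.toReal_le_of_le_ofReal hV0 hJν
    linarith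
  · intro σ hσ
    haveI hσp := hσ.1
    have hσK := hclsK σ hσ
    have hFνσ : FinEn p ν σ := (hint n p q hp hpq ν σ inferInstance inferInstance (hclsBP' σ hσ)
      (hBSK _ hνK) (hBSK _ hσK)).2.2
    have hsym : En p ν σ = En p σ ν := (hexp n p ν σ hνp hσp hFν (hfin σ hσ) hFνσ).1
    rw [← hsym]
    have hUc : Continuous (U p σ) := hcont n p q hp hpq σ inferInstance (hclsBP' σ hσ) (hBSK _ hσK)
    -- convergence of the mutual energies
    have hA : Tendsto (fun k => En p (s k) σ) F (𝓝 (En p ν σ)) := hνf _ hUc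
    set W : ℝ := En p σ σ with hW
    set A : ℝ := En p ν σ with hAdef
    have hFk : ∀ k, FinEn p (s k) σ := fun k =>
      (hint n p q hp hpq (s k) σ inferInstance inferInstance (hclsBP' σ hσ)
        (hBSK _ (hsK k)) (hBSK _ hσK)).2.2
    have hineq : ∀ t ∈ Icc (0 : ℝ) 1, V ≤ (1 - t) ^ 2 * V + 2 * t * (1 - t) * A + t ^ 2 * W := by
      intro t ht
      have h1 : ∀ k : ℕ, V ≤ (1 - t) ^ 2 * (V + 1 / ((k : ℝ) + 1)) +
          2 * t * (1 - t) * En p (s k) σ + t ^ 2 * W := by
        intro k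
        have h2 := hV _ (hmix (s k) (hs k) σ hσ t ht)
        have h3 := ((hexp n p (s k) σ (hsp k) hσp (hfin _ (hs k)) (hfin σ hσ) (hFk k)).2 t ht).2.1
        rw [h3] at h2
        have h4 : (1 - t) ^ 2 * En p (s k) (s k) ≤ (1 - t) ^ 2 * (V + 1 / ((k : ℝ) + 1)) :=
          mul_le_mul_of_nonneg_left (hsE k) (sq_nonneg _)
        linarith
      have h5 : Tendsto (fun k : ℕ => (1 - t) ^ 2 * (V + 1 / ((k : ℝ) + 1)) +
          2 * t * (1 - t) * En p (s k) σ + t ^ 2 * W) F
          (𝓝 ((1 - t) ^ 2 * (V + 0) + 2 * t * (1 - t) * A + t ^ 2 * W)) := by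
        refine ((Tendsto.const_mul _ ?_).add (Tendsto.const_mul _ hA)).add tendsto_const_nhds
        exact (tendsto_const_nhds.add tendsto_one_div_add_atTop_nhds_zero_nat).mono_left hFle
      rw [add_zero] at h5
      exact ge_of_tendsto h5 (Eventually.of_forall h1)
    by_contra hcon
    push Not at hcon
    set C : ℝ := |V - 2 * A + W| + 1 with hC
    have hCpos : 0 < C := by positivity
    set t : ℝ := min 1 ((V - A) / C) with ht
    have ht0 : 0 < t := lt_min one_pos (div_pos (by linarith) hCpos)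
    have ht1 : t ≤ 1 := min_le_left _ _
    have htC : t * C ≤ V - A := by
      have := min_le_right 1 ((V - A) / C)
      rw [← ht] at this
      rwa [le_div_iff₀ hCpos] at this
    have h1 := hineq t ⟨ht0.le, ht1⟩
    have h2 : 0 ≤ t * (2 * (A - V) + t * (V - 2 * A + W)) := by nlinarith
    have h3 : 0 ≤ 2 * (A - V) + t * (V - 2 * A + W) := by
      by_contra h
      push Not at h
      have := mul_neg_of_pos_of_neg ht0 h
      linarith
    have h4 : t * (V - 2 * A + W) ≤ t * C :=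
      mul_le_mul_of_nonneg_left (by rw [hC]; linarith [le_abs_self (V - 2 * A + W)]) ht0.le
    linarith

end Pool.Agent.R375.RC
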